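import Mathlib
import Pool.Agent.H958R4.G8
import Pool.Agent.H378R3.H958C23
import Pool.Agent.H378R3.H958C1
import Pool.Agent.H378R3.H958B1
import Pool.Agent.H378R3.H958B2
import Pool.Agent.H167R3.H958A

/-!
# MP_5f0aae_co: the number of homeomorphically irreducible graphs

`h p q` is the number of (unlabeled, simple, not necessarily connected) graphs with `p` points and
`q` lines in which no point has degree 2.  The theorem is the closed formula

  `∑_q h p q x^q = ∑_{n ≤ p} (1 / n!) ∑_{σ ∈ S_n} Z_σ(x) [y^(p-n)] exp (L_σ(x, y))`,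

where `Z_σ(x)` is the term of `σ` in Polya's formula for all graphs (pair group, figure counting
series `1 + x`) and, with `F_a` the number of fixed points of `σ^a` and `e_a = 1` for even `a`,
`e_a = 0` for odd `a`,

  `L_σ = ∑_{a ≥ 1} ( - log (1 + x^a y^a) / 2 + x^a y^a / (2 a) + e_a x^a y^a / a`
        `- x^(2a) y^(2a) / (4 a) + (2 F_a - F_(2a)) x^(2a) y^a / (2 a)`
        `- y^a λ_a^2 / (2 a (1 + x^a y^a)) )`,
  `λ_a = F_a x^a + e_a (x^(a/2) - x^a y^(a/2))`.
-/

set_option autoImplicit false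

namespace Pool.Agent.Results.MP_5f0aae_co.ClosedForm

open Finset
open scoped Classical

/-- A graph is homeomorphically irreducible if no point has degree 2. -/
def Irreducible {V : Type} (G : SimpleGraph V) : Prop := ∀ v, (G.neighborSet v).ncard ≠ 2

/-- isomorphism of homeomorphically irreducible graphs with point set `Fin p` and `q` lines -/
def isoSetoid (p q : ℕ) :
    Setoid {G : SimpleGraph (Fin p) // Irreducible G ∧ G.edgeSet.ncard = q} where
  r G H := Nonempty (G.1 ≃g H.1)
  iseqv := ⟨fun _ => ⟨SimpleGraph.Iso.refl⟩, fun ⟨e⟩ => ⟨e.symm⟩, fun ⟨e⟩ ⟨f⟩ => ⟨e.trans f⟩⟩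

/-- the number of isomorphism classes of homeomorphically irreducible graphs with `p` points and
`q` lines -/
noncomputable def h (p q : ℕ) : ℕ := Nat.card (Quotient (isoSetoid p q))

/-- the cycles of the permutation that `σ` induces on the pairs of distinct elements of `V` -/
noncomputable def pairCycles {V : Type} [Fintype V] (σ : Equiv.Perm V) :
    Finset (Finset (Sym2 V)) :=
  (univ.filter fun e : Sym2 V => ¬ e.IsDiag).image fun e =>
    univ.filter fun f => ∃ k : ℕ, f = Sym2.map (σ ^ k : Equiv.Perm V) e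

/-- the term of `σ` in Polya's formula for all graphs on `V` -/
noncomputable def Z {V : Type} [Fintype V] (σ : Equiv.Perm V) : Polynomial ℚ :=
  ∏ O ∈ pairCycles σ, (1 + Polynomial.X ^ O.card)

/-- `F σ a` is the number of fixed points of `σ ^ a` -/
noncomputable def F {V : Type} [Fintype V] (σ : Equiv.Perm V) (a : ℕ) : ℕ :=
  (univ.filter fun v => (σ ^ a : Equiv.Perm V) v = v).card

/-- power series in `y` with coefficients in `ℚ[x]` -/
abbrev PS := PowerSeries (Polynomial ℚ)

/-- the variable `x` -/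
noncomputable def x : PS := PowerSeries.C (Polynomial.X : Polynomial ℚ)

/-- the variable `y` -/
noncomputable def y : PS := PowerSeries.X

/-- `1` if `a` is even, `0` if `a` is odd -/
noncomputable def e (a : ℕ) : PS := if Even a then 1 else 0

/-- `1 / (1 + x^a y^a) = ∑_j (-1)^j (x y)^(a j)`, for `a ≥ 1` -/
noncomputable def geo (a : ℕ) : PS :=
  PowerSeries.mk fun n => if a ∣ n then (-1) ^ (n / a) * Polynomial.X ^ n else 0

/-- `log (1 + x^a y^a) = ∑_{j ≥ 1} (-1)^(j+1) / j (x y)^(a j)`, for `a ≥ 1` -/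
noncomputable def logS (a : ℕ) : PS :=
  PowerSeries.mk fun n => if a ∣ n ∧ 0 < n then
    ((-1) ^ (n / a + 1) / ((n / a : ℕ) : ℚ)) • Polynomial.X ^ n else 0

/-- `λ_a = F_a x^a + e_a (x^(a/2) - x^a y^(a/2))` -/
noncomputable def lam (F : ℕ → ℕ) (a : ℕ) : PS :=
  (F a : PS) * x ^ a + e a * (x ^ (a / 2) - x ^ a * y ^ (a / 2))

/-- the `a`-th summand of `L` -/
noncomputable def ell (F : ℕ → ℕ) (a : ℕ) : PS :=
  - (1 / 2 : ℚ) • logS a + (1 / (2 * a) : ℚ) • (x ^ a * y ^ a)
  + (1 / a : ℚ) • (e a * x ^ a * y ^ a) - (1 / (4 * a) : ℚ) • (x ^ (2 * a) * y ^ (2 * a))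
  + ((2 * F a - F (2 * a)) / (2 * a) : ℚ) • (x ^ (2 * a) * y ^ a)
  - (1 / (2 * a) : ℚ) • (y ^ a * lam F a ^ 2 * geo a)

/-- `L = ∑_{a ≥ 1} ell F a`: as `ell F a` is divisible by `y^a`, the coefficient of `y^m` is the
finite sum over `1 ≤ a ≤ m` -/
noncomputable def L (F : ℕ → ℕ) : PS :=
  PowerSeries.mk fun m => ∑ a ∈ Icc 1 m, PowerSeries.coeff m (ell F a)

/-- `exp f = ∑_k f^k / k!` for a power series `f` in `y` without constant term -/
noncomputable def expS (f : PS) : PS :=
  PowerSeries.mk fun m => ∑ k ∈ range (m + 1), (1 / k.factorial : ℚ) • PowerSeries.coeff m (f ^ k)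

/-- the closed formula for the counting polynomial of the homeomorphically irreducible graphs with
`p` points -/
noncomputable def closed (p : ℕ) : Polynomial ℚ :=
  ∑ n ∈ range (p + 1), (1 / n.factorial : ℚ) • ∑ σ : Equiv.Perm (Fin n),
    Z σ * PowerSeries.coeff (p - n) (expS (L (F σ)))

theorem h_eq (p q : ℕ) : h p q = H958R4.h p q := rfl

theorem Z_eq {V : Type} [Fintype V] (σ : Equiv.Perm V) : Z σ = H958R4.Z σ := rfl

theorem F_eq {V : Type} [Fintype V] (σ : Equiv.Perm V) : F σ = H958R4.fixc σ := rfl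

theorem lam_eq (F : ℕ → ℕ) (a : ℕ) : lam F a = H958R4.lam F a := rfl

theorem ell_eq (F : ℕ → ℕ) (a : ℕ) : ell F a = H958R4.ell F a := rfl

theorem L_eq (F : ℕ → ℕ) : L F = H958R4.L F := rfl

theorem expS_eq (f : PS) : expS f = H958R4.expS f := rfl

theorem closed_eq (p : ℕ) : closed p = H958R4.closed p := by
  unfold closed H958R4.closed
  simp only [Z_eq, F_eq, L_eq, expS_eq]

theorem result : ∀ p q : ℕ, (h p q : ℚ) = (closed p).coeff q := by
  intro p q
  rw [h_eq, closed_eq]
  exact H958R4.main H167R3.A958.taskA H378R3.B1.taskCycleExtract H378R3.B2.taskSplit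
    H378R3.C1.taskBurnside H378R3.C23.taskSieve H378R3.C23.taskPolya p q

end Pool.Agent.Results.MP_5f0aae_co.ClosedForm
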